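import Pool.Agent.Helper53.CTG.Goals

/-!
# PROJECT CTG (MP_8b4d68_lc), packet CTG-FI0: the single steps outside of the main loop
-/

namespace Pool.Agent.Helper58.CTG

open Pool.Agent.Helper53.CTG
open Pool.Agent.Helper1.TE (Gad app cif ctab bitc seed wN vN addm NumMach codeB word)
open Pool.Agent.Helper65.LinSpace (dig tab nrec ifz eq01 le01 lt01 capPow)

theorem cif_z {β : Type} (x y : β) : cif 0 x y = x := rfl

theorem cif_n {β : Type} {c : ℕ} (h : c ≠ 0) (x y : β) : cif c x y = y := if_neg h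

/-- The next state for a malformed word. -/
theorem inv_mal {ok : ℕ → ℕ → ℕ → ℕ → ℕ} {tst : ℕ → ℕ} {mal : ℕ} {w : List Bool}
    (h : ∀ N q b c, ¬ Full ok w N q b c) : Inv ok tst mal w (malS mal) := by
  unfold malS
  by_cases hm : mal = 0
  · rw [hm, cif_z]
    exact .rej
  · rw [cif_n hm]
    exact .m7 (Or.inr ⟨hm, fun ⟨N, q, b, c, hf⟩ => h N q b c hf⟩)

section nextN

variable (ok : ℕ → ℕ → ℕ → ℕ → ℕ) (tst : ℕ → ℕ) (mal N q b c u W y γ : ℕ)

theorem nextN0 : nextN ok tst mal (hdr 0 N q b c u W) y γ =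
    cif y (malS mal) (cif (y - 1) (hdr 1 N 0 0 0 0 0) (hdr 0 (N + 1) 0 0 0 0 0)) := rfl

theorem nextN1 : nextN ok tst mal (hdr 1 N q b c u W) y γ =
    cif y (malS mal) (cif (y - 1) (hdr 2 N q 0 0 0 0) (hdr 1 N (q + 1) 0 0 0 0)) := rfl

theorem nextN2 : nextN ok tst mal (hdr 2 N q b c u W) y γ =
    cif y (malS mal) (cif (y - 1) (hdr 3 N q b 0 0 0) (hdr 2 N q (b + 1) 0 0 0)) := rfl

theorem nextN3 : nextN ok tst mal (hdr 3 N q b c u W) y γ =
    cif y (malS mal) (cif (y - 1)
      (cif (q * le01 q N * b * le01 c b * ok N q b c) (malS mal) (hdr 4 N q b c 0 1))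
      (hdr 3 N q b (c + 1) 0 0)) := rfl

theorem nextN4 : nextN ok tst mal (hdr 4 N q b c u W) y γ =
    cif y (malS mal)
      (cif (N + b - u) (hdr 5 N q b c 0 1) (hdr 4 N q b c (u + 1) (2 * W))) := rfl

theorem nextN5 : nextN ok tst mal (hdr 5 N q b c u W) y γ =
    cif (Et N q b c - u) (mainS N q b c 0 W 0 0 0 (root N q) 0 0 0)
      (hdr 5 N q b c (u + 1) (2 * W)) := rfl

theorem nextN7 : nextN ok tst mal accS y γ = accS := rfl

theorem nextN8 : nextN ok tst mal rejS y γ = rejS := rfl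

end nextN

theorem codeB_none : codeB none = 0 := rfl

theorem codeB_false : codeB (some false) = 1 := rfl

theorem codeB_true : codeB (some true) = 2 := rfl

theorem codeB_some (a : Bool) : codeB (some a) ≠ 0 := by cases a <;> decide

theorem ones_succ {w : List Bool} {s n : ℕ} (h1 : Ones w s n) (e : w[s + n]? = some true) :
    Ones w s (n + 1) := by
  intro i hi
  rcases Nat.lt_succ_iff_lt_or_eq.mp hi with h3 | h3
  · exact h1 i h3
  · rw [h3]
    exact e

theorem ones_zero (w : List Bool) (s : ℕ) : Ones w s 0 := fun _ hi => absurd hi (Nat.not_lt_zero _)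

/-- The step with `γ = 0`. -/
theorem nx_zero (ok : ℕ → ℕ → ℕ → ℕ → ℕ) (tst : ℕ → ℕ) (mal : ℕ) (w : List Bool) (x : Sta) :
    (machM ok tst mal).nx w x 0 = nextN ok tst mal x (codeB w[addrM x]?) 0 := by
  change nextM ok tst mal x (codeB w[addrM x]?) 0 = _
  unfold nextM
  rw [Nat.zero_mul, cif_z]

/-- The step with `γ = 1`, if nothing is guessed. -/
theorem nx_one (ok : ℕ → ℕ → ℕ → ℕ → ℕ) (tst : ℕ → ℕ) (mal : ℕ) (w : List Bool) (x : Sta)
    (h : x.mo ≠ 6) : (machM ok tst mal).nx w x 1 = cif (eq01 x.mo 7) rejS x := by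
  change nextM ok tst mal x (codeB w[addrM x]?) 1 = _
  have h1 : gqM x = 0 := by
    unfold gqM eq01
    rw [if_neg h, Nat.zero_mul, Nat.zero_mul]
  unfold nextM
  rw [h1]
  exact cif_n (by norm_num) _ _

theorem inv_one {ok : ℕ → ℕ → ℕ → ℕ → ℕ} {tst : ℕ → ℕ} {mal : ℕ} {w : List Bool} {x : Sta}
    (hx : Inv ok tst mal w x) (h : x.mo ≠ 6) : Inv ok tst mal w ((machM ok tst mal).nx w x 1) := by
  rw [nx_one ok tst mal w x h]
  by_cases h8 : eq01 x.mo 7 = 0
  · rw [h8, cif_z]
    exact .rej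
  · rw [cif_n h8]
    exact hx

section steps

variable {ok : ℕ → ℕ → ℕ → ℕ → ℕ} {tst : ℕ → ℕ} {mal : ℕ} {w : List Bool}

theorem st0 (FU : GoalFU) (N : ℕ) (h1 : Ones w 0 N) :
    Inv ok tst mal w (nextN ok tst mal (hdr 0 N 0 0 0 0 0) (codeB w[N]?) 0) := by
  rw [nextN0]
  rcases e : w[N]? with _ | a
  · rw [codeB_none, cif_z]
    refine inv_mal fun N' q' b' c' hf => ?_
    have h2 : N ≤ N' := (FU ok w N 0 0 0 N' q' b' c' hf).1 h1
    rcases Nat.lt_or_ge N N' with h3 | h3
    · have h4 := hf.1.1.1.1.1 N h3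
      rw [Nat.zero_add, e] at h4
      exact absurd h4 (by simp)
    · have h4 : N = N' := le_antisymm h2 h3
      have h5 := hf.1.1.1.1.2.1
      rw [← h4, e] at h5
      exact absurd h5 (by simp)
  · cases a
    · rw [codeB_false, cif_n one_ne_zero]
      exact .m1 N 0 ⟨h1, e, ones_zero _ _⟩
    · rw [codeB_true, cif_n two_ne_zero]
      exact .m0 (N + 1) (ones_succ h1 (by rw [Nat.zero_add]; exact e))

theorem st1 (FU : GoalFU) (N q : ℕ) (h1 : P1 w N q) :
    Inv ok tst mal w (nextN ok tst mal (hdr 1 N q 0 0 0 0) (codeB w[N + 1 + q]?) 0) := by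
  rw [nextN1]
  rcases e : w[N + 1 + q]? with _ | a
  · rw [codeB_none, cif_z]
    refine inv_mal fun N' q' b' c' hf => ?_
    obtain ⟨h2, h3⟩ := (FU ok w N q 0 0 N' q' b' c' hf).2.1 h1
    subst h2
    rcases Nat.lt_or_ge q q' with h4 | h4
    · have h5 := hf.1.1.1.1.2.2 q h4
      rw [e] at h5
      exact absurd h5 (by simp)
    · have h5 : q = q' := le_antisymm h3 h4
      subst h5
      have h6 := hf.1.1.1.2.1
      rw [e] at h6
      exact absurd h6 (by simp)
  · cases a
    · rw [codeB_false, cif_n one_ne_zero]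
      exact .m2 N q 0 ⟨h1, e, ones_zero _ _⟩
    · rw [codeB_true, cif_n two_ne_zero]
      exact .m1 N (q + 1) ⟨h1.1, h1.2.1, ones_succ h1.2.2 e⟩

theorem st2 (FU : GoalFU) (N q b : ℕ) (h1 : P2 w N q b) :
    Inv ok tst mal w (nextN ok tst mal (hdr 2 N q b 0 0 0) (codeB w[N + q + 2 + b]?) 0) := by
  rw [nextN2]
  rcases e : w[N + q + 2 + b]? with _ | a
  · rw [codeB_none, cif_z]
    refine inv_mal fun N' q' b' c' hf => ?_
    obtain ⟨h2, h3, h4⟩ := (FU ok w N q b 0 N' q' b' c' hf).2.2.1 h1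
    subst h2
    subst h3
    rcases Nat.lt_or_ge b b' with h5 | h5
    · have h6 := hf.1.1.1.2.2 b h5
      rw [e] at h6
      exact absurd h6 (by simp)
    · have h6 : b = b' := le_antisymm h4 h5
      subst h6
      have h7 := hf.1.1.2.1
      rw [e] at h7
      exact absurd h7 (by simp)
  · cases a
    · rw [codeB_false, cif_n one_ne_zero]
      exact .m3 N q b 0 ⟨h1, e, ones_zero _ _⟩
    · rw [codeB_true, cif_n two_ne_zero]
      exact .m2 N q (b + 1) ⟨h1.1, h1.2.1, ones_succ h1.2.2 e⟩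

theorem st3 (FU : GoalFU) (N q b c : ℕ) (h1 : P3 w N q b c) :
    Inv ok tst mal w (nextN ok tst mal (hdr 3 N q b c 0 0) (codeB w[N + q + b + 3 + c]?) 0) := by
  rw [nextN3]
  rcases e : w[N + q + b + 3 + c]? with _ | a
  · rw [codeB_none, cif_z]
    refine inv_mal fun N' q' b' c' hf => ?_
    obtain ⟨h2, h3, h4, h5⟩ := (FU ok w N q b c N' q' b' c' hf).2.2.2.1 h1
    subst h2
    subst h3
    subst h4
    rcases Nat.lt_or_ge c c' with h6 | h6
    · have h7 := hf.1.1.2.2 c h6
      rw [e] at h7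
      exact absurd h7 (by simp)
    · have h7 : c = c' := le_antisymm h5 h6
      subst h7
      have h8 := hf.1.2.1
      rw [e] at h8
      exact absurd h8 (by simp)
  · cases a
    · rw [codeB_false, cif_n one_ne_zero, cif_z]
      by_cases hz : q * le01 q N * b * le01 c b * ok N q b c = 0
      · rw [hz, cif_z]
        refine inv_mal fun N' q' b' c' hf => ?_
        obtain ⟨h2, h3, h4, h5⟩ := (FU ok w N q b c N' q' b' c' hf).2.2.2.2 h1 e
        subst h2
        subst h3
        subst h4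
        subst h5
        obtain ⟨⟨_, _, h6, h7, h8, h9, h10⟩, _⟩ := hf
        refine (mul_ne_zero (mul_ne_zero (mul_ne_zero (mul_ne_zero (by omega) ?_) (by omega)) ?_)
          h10) hz
        · unfold le01
          rw [if_pos h7]
          exact one_ne_zero
        · unfold le01
          rw [if_pos h9]
          exact one_ne_zero
      · rw [cif_n hz]
        have h2 := left_ne_zero_of_mul hz
        have h3 := left_ne_zero_of_mul h2
        have h4 := left_ne_zero_of_mul h3
        have hle : c ≤ b := by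
          by_contra hcb
          apply right_ne_zero_of_mul h2
          unfold le01
          rw [if_neg hcb]
        have hle' : q ≤ N := by
          by_contra hcb
          apply right_ne_zero_of_mul h4
          unfold le01
          rw [if_neg hcb]
        exact .m4 N q b c 0 ⟨h1, e, Nat.one_le_iff_ne_zero.mpr (left_ne_zero_of_mul h4), hle',
          Nat.one_le_iff_ne_zero.mpr (right_ne_zero_of_mul h3), hle, right_ne_zero_of_mul hz⟩
          (Nat.zero_le _) fun t ht => absurd ht (Nat.not_lt_zero t)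
    · rw [codeB_true, cif_n two_ne_zero]
      exact .m3 N q b (c + 1) ⟨h1.1, h1.2.1, ones_succ h1.2.2 e⟩

theorem st4 (FU : GoalFU) (N q b c u : ℕ) (h1 : Hd ok w N q b c) (hu : u ≤ N + b)
    (h2 : ∀ t < u, 2 ^ t < w.length) :
    Inv ok tst mal w (nextN ok tst mal (hdr 4 N q b c u (2 ^ u)) (codeB w[2 ^ u]?) 0) := by
  rw [nextN4]
  rcases e : w[2 ^ u]? with _ | a
  · rw [codeB_none, cif_z]
    refine inv_mal fun N' q' b' c' hf => ?_
    obtain ⟨h3, h4, h5, h6⟩ := (FU ok w N q b c N' q' b' c' hf).2.2.2.2 h1.1 h1.2.1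
    subst h3
    subst h4
    subst h5
    subst h6
    have h7 : 2 ^ u ≤ 2 ^ (N + b) := Nat.pow_le_pow_right (by norm_num) hu
    have h8 := hf.2
    have h9 := List.getElem?_eq_none_iff.mp e
    omega
  · rw [cif_n (codeB_some a)]
    have h5 : 2 ^ u < w.length := (List.getElem?_eq_some_iff.mp e).1
    by_cases hz : N + b - u = 0
    · have h6 : u = N + b := by omega
      rw [hz, cif_z]
      have h7 : Inv ok tst mal w (hdr 5 N q b c 0 (2 ^ 0)) :=
        .m5 N q b c 0 ⟨h1, by rw [← h6]; exact h5⟩ (Nat.zero_le _)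
      exact h7
    · rw [cif_n hz, show 2 * 2 ^ u = 2 ^ (u + 1) by rw [pow_succ, mul_comm]]
      refine .m4 N q b c (u + 1) h1 (by omega) fun t ht => ?_
      rcases Nat.lt_succ_iff_lt_or_eq.mp ht with h3 | h3
      · exact h2 t h3
      · rw [h3]
        exact h5

theorem st5 (N q b c u y : ℕ) (h1 : Full ok w N q b c) (hu : u ≤ Et N q b c) :
    Inv ok tst mal w (nextN ok tst mal (hdr 5 N q b c u (2 ^ u)) y 0) := by
  rw [nextN5]
  by_cases hz : Et N q b c - u = 0
  · have h6 : u = Et N q b c := by omega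
    rw [hz, cif_z, h6]
    have h0 : toF N q b 0 0 = fun _ => (0, 0) := by
      funext j
      simp [toF, dig]
    refine .m6 N q b c 0 0 0 0 (root N q) 0 0 0 h1 (Nat.pow_pos (by norm_num)) (Nat.zero_le _)
      (Nat.pow_pos (by norm_num)) ?_ ?_ (Nat.pow_pos (Nat.pow_pos (by norm_num)))
      (Nat.pow_pos (Nat.pow_pos (by norm_num))) ?_
    · rw [Nat.zero_min]
      rfl
    · rw [Nat.zero_sub]
      rfl
    · rw [h0]
      exact ⟨fun _ => 0, fun _ => Nat.pow_pos (by norm_num), rfl⟩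
  · rw [cif_n hz, show 2 * 2 ^ u = 2 ^ (u + 1) by rw [pow_succ, mul_comm]]
    exact .m5 N q b c (u + 1) h1 (by omega)

end steps

/-- FI0. -/
theorem gFI0 : GoalFI0 := by
  intro FU ok tst mal w x γ hγ hx h6
  have hγ' : γ = 0 ∨ γ = 1 := by omega
  rcases hγ' with rfl | rfl
  swap
  · exact inv_one hx h6
  rw [nx_zero]
  cases hx with
  | rej => rw [nextN8]; exact .rej
  | m0 N h1 => exact st0 FU N h1
  | m1 N q h1 => exact st1 FU N q h1
  | m2 N q b h1 => exact st2 FU N q b h1
  | m3 N q b c h1 => exact st3 FU N q b c h1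
  | m4 N q b c u h1 hu h2 => exact st4 FU N q b c u h1 hu h2
  | m5 N q b c u h1 hu => exact st5 N q b c u _ h1 hu
  | m6 => exact absurd rfl h6
  | m7 h1 => rw [nextN7]; exact .m7 h1

end Pool.Agent.Helper58.CTG
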